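import Pool.Agent.Y664.SC.Fub
import Pool.Agent.Y245.SC.Stm

/-!
SC-ZMOM (job 6341): the moments of `Z` vanish.
-/

set_option autoImplicit false
set_option linter.all false

open Complex MeasureTheory Metric Set Filter Topology ComplexConjugate Function

namespace Pool.Agent.Y664.SC

open Pool.Agent.Y245.SC

theorem circ (g : ℂ → ℂ) : (∮ w in C(0, 1), g w) =
    ∫ θ in (0:ℝ)..2 * Real.pi, (exp (θ * I) * I) * g (exp (θ * I)) := by
  rw [circleIntegral]
  apply intervalIntegral.integral_congr
  intro θ _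
  simp [deriv_circleMap, circleMap, smul_eq_mul]

theorem zmom : S_ZMOM := by
  intro hK hS φ a ℓ ha hℓ hφ h1 h2 n
  have hone : (1:ℝ) < Real.exp ℓ := Real.one_lt_exp_iff.2 hℓ
  have hUo : IsOpen (ball (0:ℂ) (Real.exp ℓ)) := isOpen_ball
  have hle : ∀ z : ℂ, ‖z‖ ≤ 1 → z ∈ ball (0:ℂ) (Real.exp ℓ) := fun z hz =>
    mem_ball_zero_iff.2 (lt_of_le_of_lt hz hone)
  have hkd : Differentiable ℂ (kap a) := (hK a ha.le).1
  have hkc : Continuous (kap a) := hkd.continuous
  have hφc : ContinuousOn φ (ball (0:ℂ) (Real.exp ℓ)) := hφ.continuousOn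
  have hdc : ContinuousOn (deriv φ) (ball (0:ℂ) (Real.exp ℓ)) := (hφ.deriv hUo).continuousOn
  have hE : ∀ s : ℝ, ‖exp (s * I)‖ = 1 := fun s => norm_exp_ofReal_mul_I s
  have hEU : ∀ s : ℝ, exp (s * I) ∈ ball (0:ℂ) (Real.exp ℓ) := fun s => hle _ (hE s).le
  have cE : Continuous (fun s : ℝ => exp (s * I)) := by fun_prop
  obtain ⟨P, hP⟩ : ∃ P : ℝ → ℂ, P = fun s : ℝ => φ (exp (s * I)) := ⟨_, rfl⟩
  obtain ⟨f, hf⟩ : ∃ f : ℝ → ℂ, f = fun s : ℝ => conj (φ (exp (s * I))) := ⟨_, rfl⟩
  obtain ⟨D, hD⟩ : ∃ D : ℝ → ℂ, D = fun s : ℝ => deriv φ (exp (s * I)) * exp (s * I) := ⟨_, rfl⟩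
  have cP : Continuous P := by rw [hP]; exact hφc.comp_continuous cE hEU
  have cf : Continuous f := by rw [hf]; exact continuous_conj.comp (hφc.comp_continuous cE hEU)
  have cD : Continuous D := by rw [hD]; exact (hdc.comp_continuous cE hEU).mul cE
  obtain ⟨K, hKd⟩ : ∃ K : ℝ → ℝ → ℂ, K = fun θ s : ℝ =>
    f s ^ 2 * kap a (f s * (P s - P θ)) * D s * I * exp ((n + 1) * (θ * I)) := ⟨_, rfl⟩
  have cK : Continuous (uncurry K) := by
    rw [hKd]
    simp only [uncurry_def]
    have c1 : Continuous (fun p : ℝ × ℝ => kap a (f p.2 * (P p.2 - P p.1))) := by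
      apply hkc.comp
      fun_prop
    fun_prop
  have hFc : ∀ s : ℝ, Fc φ (s * I) = f s := by
    intro s
    rw [hf]
    simp [Fc]
  have hA : ∀ θ : ℝ, seg (fun ω => Pool.Agent.Y245.SC.ker a φ ω (θ * I) (Fc φ ω)) 0 (θ * I) * exp ((n + 1) * (θ * I)) =
      ∫ s in (0:ℝ)..θ, K θ s := by
    intro θ
    have h := intervalIntegral.smul_integral_comp_mul_right (fun s => K θ s) θ (a := 0) (b := 1)
    rw [zero_mul, one_mul] at h
    rw [← h, seg, ← intervalIntegral.integral_mul_const, ← intervalIntegral.integral_smul]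
    apply intervalIntegral.integral_congr
    intro t _
    have e1 : (0:ℂ) + t * (θ * I - 0) = ((t * θ : ℝ) : ℂ) * I := by push_cast; ring
    simp only [e1, hFc, Pool.Agent.Y245.SC.ker, hKd]
    rw [hP, hD, real_smul]
    simp only [sub_zero]
    ring
  have hB := tri (T := 2 * Real.pi) (by positivity) K cK
  obtain ⟨Pr, hPr⟩ : ∃ Pr : ℝ → ℂ → ℂ, Pr = fun s x =>
    seg (fun z => z ^ n * kap a (f s * (P s - φ z))) 0 x := ⟨_, rfl⟩
  have hC : ∀ s : ℝ, ∫ θ in s..(2 * Real.pi), K θ s =
      f s ^ 2 * D s * Pr s 1 - f s ^ 2 * D s * Pr s (exp (s * I)) := by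
    intro s
    have hd : DifferentiableOn ℂ (fun z => z ^ n * kap a (f s * (P s - φ z)))
        (ball (0:ℂ) (Real.exp ℓ)) := by
      apply DifferentiableOn.mul (by fun_prop)
      apply hkd.comp_differentiableOn
      exact (hφ.const_sub _).const_mul _
    have hs := (hS _ _ hUo (convex_ball _ _) hd).2 0 (hle 0 (by simp))
    have hder : ∀ θ : ℝ, HasDerivAt (fun θ : ℝ => Pr s (exp (θ * I)))
        ((exp (θ * I)) ^ n * kap a (f s * (P s - φ (exp (θ * I)))) * (exp (θ * I) * I)) θ := by
      intro θ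
      have h3 : HasDerivAt (fun θ : ℝ => exp (θ * I)) (exp (θ * I) * I) θ := by
        have h4 : HasDerivAt (fun θ : ℝ => (θ : ℂ) * I) (1 * I) θ := by
          exact (ofRealCLM.hasDerivAt (x := θ)).mul_const I
        rw [one_mul] at h4
        exact h4.cexp
      rw [hPr]
      exact HasDerivAt.comp θ (hs _ (hEU θ)) h3
    have hcont : Continuous (fun θ : ℝ =>
        (exp (θ * I)) ^ n * kap a (f s * (P s - φ (exp (θ * I)))) * (exp (θ * I) * I)) := by
      have c2 : Continuous (fun θ : ℝ => φ (exp (θ * I))) := by rw [hP] at cP; exact cP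
      have c3 : Continuous (fun θ : ℝ => kap a (f s * (P s - φ (exp (θ * I))))) :=
        hkc.comp (continuous_const.mul (continuous_const.sub c2))
      exact ((cE.pow n).mul c3).mul (cE.mul continuous_const)
    have h5 := intervalIntegral.integral_eq_sub_of_hasDerivAt (a := s) (b := 2 * Real.pi)
      (fun θ _ => hder θ) (hcont.intervalIntegrable _ _)
    have h6 : exp (((2 * Real.pi : ℝ) : ℂ) * I) = 1 := by
      push_cast
      exact exp_two_pi_mul_I
    rw [h6] at h5
    rw [← mul_sub, ← h5, ← intervalIntegral.integral_const_mul]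
    apply intervalIntegral.integral_congr
    intro θ _
    have e2 : exp ((n + 1) * (θ * I)) = exp (θ * I) ^ n * exp (θ * I) := by
      rw [← pow_succ, ← exp_nat_mul]
      push_cast
      rfl
    simp only [hKd, e2]
    rw [hP]
    ring
  -- continuity of the primitives
  have cPr : ∀ x : ℝ → ℂ, Continuous x → (∀ s, ‖x s‖ ≤ 1) → Continuous (fun s => Pr s (x s)) := by
    intro x cx hx
    obtain ⟨cl, hcl⟩ : ∃ cl : ℝ → ℝ, cl = fun t => max 0 (min t 1) := ⟨_, rfl⟩
    have ccl : Continuous cl := by rw [hcl]; fun_prop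
    have h0 : ∀ t, 0 ≤ cl t := fun t => by rw [hcl]; exact le_max_left _ _
    have h1' : ∀ t, cl t ≤ 1 := fun t => by
      rw [hcl]; exact max_le zero_le_one (min_le_right _ _)
    have hU2 : ∀ p : ℝ × ℝ, (cl p.2 : ℂ) * x p.1 ∈ ball (0:ℂ) (Real.exp ℓ) := by
      intro p
      apply hle
      rw [norm_mul, norm_real, Real.norm_of_nonneg (h0 _)]
      exact mul_le_one₀ (h1' _) (norm_nonneg _) (hx _)
    have cφ : Continuous (fun p : ℝ × ℝ => φ ((cl p.2 : ℂ) * x p.1)) :=
      hφc.comp_continuous (by fun_prop) hU2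
    have e3 : (fun s => Pr s (x s)) = fun s => ∫ t in (0:ℝ)..1,
        ((cl t : ℂ) * x s) ^ n * kap a (f s * (P s - φ ((cl t : ℂ) * x s))) * x s := by
      funext s
      rw [hPr]
      simp only [seg]
      apply intervalIntegral.integral_congr
      intro t ht
      rw [uIcc_of_le zero_le_one] at ht
      have e4 : cl t = t := by
        rw [hcl]
        show max 0 (min t 1) = t
        rw [min_eq_left ht.2, max_eq_right ht.1]
      simp only [e4, sub_zero, zero_add]
    rw [e3]
    apply intervalIntegral.continuous_parametric_intervalIntegral_of_continuous'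
    simp only [uncurry_def]
    have c4 : Continuous (fun p : ℝ × ℝ => kap a (f p.1 * (P p.1 - φ ((cl p.2 : ℂ) * x p.1)))) :=
      hkc.comp ((cf.comp continuous_fst).mul ((cP.comp continuous_fst).sub cφ))
    exact (((((continuous_ofReal.comp ccl).comp continuous_snd).mul (cx.comp continuous_fst)).pow n).mul
      c4).mul (cx.comp continuous_fst)
  have cPr1 : Continuous (fun s => Pr s 1) := cPr (fun _ => 1) continuous_const (by simp)
  have cPrE : Continuous (fun s => Pr s (exp (s * I))) := cPr _ cE (fun s => (hE s).le)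
  have hD0 : ∫ s in (0:ℝ)..(2 * Real.pi), f s ^ 2 * D s * Pr s 1 = 0 := by
    have e5 : ∀ s : ℝ, f s ^ 2 * D s * Pr s 1 = ∫ t in (0:ℝ)..1,
        f s ^ 2 * D s * ((t:ℂ) ^ n * kap a (f s * (P s - φ t))) := by
      intro s
      rw [hPr]
      simp only [seg]
      rw [← intervalIntegral.integral_const_mul]
      apply intervalIntegral.integral_congr
      intro t _
      simp only [sub_zero, zero_add, mul_one]
    simp only [e5]
    rw [rect (by positivity) zero_le_one]
    · rw [intervalIntegral.integral_congr (g := fun _ => (0:ℂ)), intervalIntegral.integral_zero]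
      intro t _
      have h7 := h1 (φ t)
      rw [circ] at h7
      show ∫ s in (0:ℝ)..(2 * Real.pi), f s ^ 2 * D s * ((t:ℂ) ^ n * kap a (f s * (P s - φ t))) = 0
      have h8 : ∀ s : ℝ, f s ^ 2 * D s * ((t:ℂ) ^ n * kap a (f s * (P s - φ t))) =
          (-I * (t:ℂ) ^ n) * (exp (s * I) * I * (conj (φ (exp (s * I))) ^ 2 *
            kap a (conj (φ (exp (s * I))) * (φ (exp (s * I)) - φ t)) * deriv φ (exp (s * I)))) := by
        intro s
        rw [hf, hP, hD]
        simp only []
        linear_combination (conj (φ (exp (s * I))) ^ 2 * (deriv φ (exp (s * I)) * exp (s * I)) *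
          ((t:ℂ) ^ n * kap a (conj (φ (exp (s * I))) * (φ (exp (s * I)) - φ t)))) * I_mul_I
      simp only [h8]
      rw [intervalIntegral.integral_const_mul, h7, mul_zero]
    · have hU3 : ∀ p ∈ Icc (0:ℝ) (2 * Real.pi) ×ˢ Icc (0:ℝ) 1, ((p.2 : ℝ) : ℂ) ∈ ball (0:ℂ) (Real.exp ℓ) := by
        intro p hp
        apply hle
        rw [norm_real, Real.norm_of_nonneg hp.2.1]
        exact hp.2.2
      have cφ : ContinuousOn (fun p : ℝ × ℝ => φ (p.2 : ℂ)) (Icc (0:ℝ) (2 * Real.pi) ×ˢ Icc (0:ℝ) 1) :=
        hφc.comp (by fun_prop) hU3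
      simp only [uncurry_def]
      have h9 : ContinuousOn (fun p : ℝ × ℝ => kap a (f p.1 * (P p.1 - φ (p.2 : ℂ))))
          (Icc (0:ℝ) (2 * Real.pi) ×ˢ Icc (0:ℝ) 1) := by
        apply hkc.comp_continuousOn
        exact (cf.comp continuous_fst).continuousOn.mul
          ((cP.comp continuous_fst).continuousOn.sub cφ)
      exact (((cf.comp continuous_fst).pow 2).mul (cD.comp continuous_fst)).continuousOn.mul
        (((continuous_ofReal.comp continuous_snd).pow n).continuousOn.mul h9)
  have hE0 : (∫ s in (0:ℝ)..(2 * Real.pi), f s * exp ((n + 1) * (s * I))) +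
      ∫ s in (0:ℝ)..(2 * Real.pi), f s ^ 2 * D s * Pr s (exp (s * I)) = 0 := by
    have h7 := h2 n
    rw [circ] at h7
    rw [← intervalIntegral.integral_add]
    · have h8 : ∀ s : ℝ, f s * exp ((n + 1) * (s * I)) + f s ^ 2 * D s * Pr s (exp (s * I)) =
          (-I) * (exp (s * I) * I * (conj (φ (exp (s * I))) * exp (s * I) ^ n +
            conj (φ (exp (s * I))) ^ 2 * deriv φ (exp (s * I)) *
            ∫ t in (0 : ℝ)..1, (t * exp (s * I)) ^ n * kap a (conj (φ (exp (s * I))) *
              (φ (exp (s * I)) - φ (t * exp (s * I)))) * exp (s * I))) := by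
        intro s
        have e2 : exp ((n + 1) * (s * I)) = exp (s * I) ^ n * exp (s * I) := by
          rw [← pow_succ, ← exp_nat_mul]
          push_cast
          rfl
        rw [e2, hPr, hf, hP, hD]
        simp only [seg, sub_zero, zero_add]
        generalize (∫ t in (0 : ℝ)..1, (t * exp (s * I)) ^ n * kap a (conj (φ (exp (s * I))) *
              (φ (exp (s * I)) - φ (t * exp (s * I)))) * exp (s * I)) = W
        linear_combination (exp (s * I) * (conj (φ (exp (s * I))) * exp (s * I) ^ n +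
            conj (φ (exp (s * I))) ^ 2 * deriv φ (exp (s * I)) * W)) * I_mul_I
      simp only [h8]
      rw [intervalIntegral.integral_const_mul, h7, mul_zero]
    · apply Continuous.intervalIntegrable
      fun_prop
    · apply Continuous.intervalIntegrable
      exact ((cf.pow 2).mul cD).mul cPrE
  have hZ : ∀ θ : ℝ, Zf a φ (θ * I) * exp ((n + 1) * (θ * I)) =
      f θ * exp ((n + 1) * (θ * I)) - ∫ s in (0:ℝ)..θ, K θ s := by
    intro θ
    rw [Zf, sub_mul, hA, hFc]
  simp only [hZ]
  rw [intervalIntegral.integral_sub, hB]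
  · simp only [hC]
    rw [intervalIntegral.integral_sub, hD0, zero_sub, sub_neg_eq_add, hE0]
    · apply Continuous.intervalIntegrable
      exact ((cf.pow 2).mul cD).mul cPr1
    · apply Continuous.intervalIntegrable
      exact ((cf.pow 2).mul cD).mul cPrE
  · apply Continuous.intervalIntegrable
    fun_prop
  · apply Continuous.intervalIntegrable
    exact intervalIntegral.continuous_parametric_intervalIntegral_of_continuous cK continuous_id

end Pool.Agent.Y664.SC
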