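import Mathlib

/-!
Fubini for continuous functions on rectangles and triangles.
-/

set_option autoImplicit false
set_option linter.all false

open MeasureTheory Set Function

namespace Pool.Agent.Y664.SC

theorem rect {a b c d : ℝ} (hab : a ≤ b) (hcd : c ≤ d) (K : ℝ → ℝ → ℂ)
    (hK : ContinuousOn (uncurry K) (Icc a b ×ˢ Icc c d)) :
    ∫ x in a..b, ∫ y in c..d, K x y = ∫ y in c..d, ∫ x in a..b, K x y := by
  simp only [intervalIntegral.integral_of_le hab, intervalIntegral.integral_of_le hcd]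
  apply integral_integral_swap
  rw [Measure.prod_restrict]
  have h1 : IntegrableOn (uncurry K) (Icc a b ×ˢ Icc c d) (volume.prod volume) := by
    have := hK.integrableOn_compact (μ := (volume : Measure (ℝ × ℝ))) (isCompact_Icc.prod isCompact_Icc)
    exact this
  exact h1.mono_set (prod_mono Ioc_subset_Icc_self Ioc_subset_Icc_self)

theorem tri {T : ℝ} (hT : 0 ≤ T) (K : ℝ → ℝ → ℂ) (hK : Continuous (uncurry K)) :
    ∫ x in (0:ℝ)..T, ∫ y in (0:ℝ)..x, K x y = ∫ y in (0:ℝ)..T, ∫ x in y..T, K x y := by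
  have hI : Integrable (uncurry K) ((volume.restrict (Ioc 0 T)).prod (volume.restrict (Ioc 0 T))) := by
    rw [Measure.prod_restrict]
    have h1 : IntegrableOn (uncurry K) (Icc 0 T ×ˢ Icc 0 T) (volume.prod volume) :=
      hK.continuousOn.integrableOn_compact (μ := (volume : Measure (ℝ × ℝ)))
        (isCompact_Icc.prod isCompact_Icc)
    exact h1.mono_set (prod_mono Ioc_subset_Icc_self Ioc_subset_Icc_self)
  have hm : MeasurableSet {p : ℝ × ℝ | p.2 ≤ p.1} := (isClosed_le continuous_snd continuous_fst).measurableSet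
  have hI' := hI.indicator hm
  have h2 := integral_integral_swap (f := fun x y => indicator {p : ℝ × ℝ | p.2 ≤ p.1} (uncurry K) (x, y))
    (μ := volume.restrict (Ioc 0 T)) (ν := volume.restrict (Ioc 0 T)) hI'
  rw [intervalIntegral.integral_of_le hT, intervalIntegral.integral_of_le hT]
  refine Eq.trans ?_ (h2.trans ?_)
  · apply setIntegral_congr_fun measurableSet_Ioc
    intro x hx
    show ∫ y in (0:ℝ)..x, K x y = ∫ y in Ioc 0 T, indicator {p : ℝ × ℝ | p.2 ≤ p.1} (uncurry K) (x, y)
    have h3 : ∀ y, indicator {p : ℝ × ℝ | p.2 ≤ p.1} (uncurry K) (x, y) = indicator (Iic x) (K x) y := by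
      intro y
      by_cases hy : y ≤ x
      · rw [indicator_of_mem (show (x, y) ∈ {p : ℝ × ℝ | p.2 ≤ p.1} from hy), indicator_of_mem (show y ∈ Iic x from hy)]
        rfl
      · rw [indicator_of_notMem (show (x, y) ∉ {p : ℝ × ℝ | p.2 ≤ p.1} from hy), indicator_of_notMem (show y ∉ Iic x from hy)]
    simp only [h3]
    rw [setIntegral_indicator measurableSet_Iic, intervalIntegral.integral_of_le hx.1.le, Ioc_inter_Iic,
      min_eq_right hx.2]
  · apply setIntegral_congr_fun measurableSet_Ioc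
    intro y hy
    show ∫ x in Ioc 0 T, indicator {p : ℝ × ℝ | p.2 ≤ p.1} (uncurry K) (x, y) = ∫ x in y..T, K x y
    have h3 : ∀ x, indicator {p : ℝ × ℝ | p.2 ≤ p.1} (uncurry K) (x, y) = indicator (Ici y) (fun x => K x y) x := by
      intro x
      by_cases hx : y ≤ x
      · rw [indicator_of_mem (show (x, y) ∈ {p : ℝ × ℝ | p.2 ≤ p.1} from hx), indicator_of_mem (show x ∈ Ici y from hx)]
        rfl
      · rw [indicator_of_notMem (show (x, y) ∉ {p : ℝ × ℝ | p.2 ≤ p.1} from hx), indicator_of_notMem (show x ∉ Ici y from hx)]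
    simp only [h3]
    rw [setIntegral_indicator measurableSet_Ici, intervalIntegral.integral_of_le hy.2, ← integral_Icc_eq_integral_Ioc]
    congr 2
    ext x
    simp only [mem_inter_iff, mem_Ioc, mem_Ici, mem_Icc]
    constructor
    · rintro ⟨⟨_, h1⟩, h2⟩
      exact ⟨h2, h1⟩
    · rintro ⟨h1, h2⟩
      exact ⟨⟨lt_of_lt_of_le hy.1 h1, h2⟩, h1⟩

end Pool.Agent.Y664.SC
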